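import Pool.Agent.helper32.TRI.Spec

set_option autoImplicit false

namespace Pool.Agent.TRI

theorem TRF (hFT4 : FT4_stmt) (hZ4A : Z4A_stmt) (hZ4B : Z4B_stmt) (hC5Y : C5Y_stmt) : TRF_stmt := by
  intro F _ _ x hx
  refine ⟨?_, ?_⟩
  · have h := hFT4 F 5 2 (by norm_num) (fun a b m y hm hT hY => by
      rcases hm with rfl | hm
      · exact hC5Y F a b y hT hY
      · exact (hZ4A F a b m y hm hT hY).2) x hx
    exact h
  · have h := hFT4 F 7 3 (by norm_num) (fun a b m y hm hT hY => by
      rcases hm with rfl | hm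
      · exact hZ4B F a b y hT hY
      · exact (hZ4A F a b m y hm hT hY).1) x hx
    exact h

end Pool.Agent.TRI
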